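import Mathlib
import Pool.Agent.W932.PSI.Blow
import Pool.Agent.W932.PSI.Concl

/-!
# Upper bound for the connectivity threshold `ψ(r)` forcing directed triangles
-/

set_option autoImplicit false

namespace Pool.Agent.Results.MP_e01c10_co.PsiUpper

open Pool.Agent.W163.PSI

/-- `ψ(r) ≤ (6 - r) / 4` for `3 < r < 6`; and for `r = 3` the semi-degree case of the
Caccetta-Häggkvist conjecture for triangles is equivalent to `ψ(3) = 1` and to `ψ(3) > 3 / 4`. -/
theorem result :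
    (∀ r : ℝ, 3 < r → r < 6 → psi r ≤ (6 - r) / 4) ∧
    (CHsemi ↔ psi 3 = 1) ∧ (CHsemi ↔ 3 / 4 < psi 3) :=
  Pool.Agent.W932.PSI.t_P3 Pool.Agent.W932.PSI.t_P1 Pool.Agent.W932.PSI.t_P2

end Pool.Agent.Results.MP_e01c10_co.PsiUpper
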